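import Mathlib

/-! Definitions for the hand-in on `MP_086785_gt`: submanifolds of normed spaces, smooth maps between
them, kernels of their differentials, contact loci, genericity notions, cobordism of embedded
submanifolds, and the question. -/

set_option autoImplicit false

namespace Pool.Agent.Lib.MP_086785_gt

open Set Filter Topology
open scoped ContDiff

section basic

variable {E F : Type} [NormedAddCommGroup E] [NormedSpace ℝ E] [NormedAddCommGroup F]
  [NormedSpace ℝ F]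

/-- `ψ`, restricted to the open set `V`, is a smooth parametrisation (immersion and homeomorphism
onto its image) of a relatively open part of `M`, of dimension `n`. -/
def IsParam (n : ℕ) (M : Set E) (ψ : (Fin n → ℝ) → E) (V : Set (Fin n → ℝ)) : Prop :=
  IsOpen V ∧ ContDiffOn ℝ ∞ ψ V ∧ InjOn ψ V ∧ (∀ x ∈ V, Function.Injective (fderiv ℝ ψ x)) ∧
  ∀ W ⊆ V, IsOpen W → ∃ U : Set E, IsOpen U ∧ ψ '' W = M ∩ U

/-- `M` is an `n`-dimensional smooth submanifold (without boundary) of `E`. -/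
def IsSubmfd (n : ℕ) (M : Set E) : Prop :=
  ∀ p ∈ M, ∃ (ψ : (Fin n → ℝ) → E) (V : Set (Fin n → ℝ)), IsParam n M ψ V ∧ p ∈ ψ '' V

/-- `f` maps `M` to `N` and is smooth on `M` (it extends locally to smooth maps of the ambient
space). -/
def SmoothMap (M : Set E) (N : Set F) (f : E → F) : Prop :=
  MapsTo f M N ∧
  ∀ p ∈ M, ∃ U : Set E, IsOpen U ∧ p ∈ U ∧ ∃ g : E → F, ContDiffOn ℝ ∞ g U ∧ EqOn f g (M ∩ U)

/-- `c` is a smooth curve which lies in `M` near time `0` and is at `p` at time `0`. -/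
def IsCurve (M : Set E) (p : E) (c : ℝ → E) : Prop :=
  ContDiff ℝ ∞ c ∧ c 0 = p ∧ ∀ᶠ t in 𝓝 (0 : ℝ), c t ∈ M

/-- The kernel of the differential at `p` of the restriction of `f` to `M`: velocities at time `0`
of curves `c` in `M` for which `f ∘ c` has velocity `0`. -/
def Ker (M : Set E) (f : E → F) (p : E) : Set E :=
  {ξ | ∃ c : ℝ → E, IsCurve M p c ∧ HasDerivAt c ξ 0 ∧ HasDerivAt (fun t => f (c t)) 0 0}

/-- The dimension of the kernel of the differential at `p` of the restriction of `f` to `M`. -/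
noncomputable def kdim (M : Set E) (f : E → F) (p : E) : ℕ :=
  Module.finrank ℝ (Submodule.span ℝ (Ker M f p))

/-- `Σ^i(f)`: the points of `M` where the kernel of the differential has dimension `i`. -/
def Sig (i : ℕ) (M : Set E) (f : E → F) : Set E := {p | p ∈ M ∧ kdim M f p = i}

/-- `Σ(f)`: the points of `M` where the kernel of the differential is not zero. -/
def Sing (M : Set E) (f : E → F) : Set E := {p | p ∈ M ∧ 1 ≤ kdim M f p}

/-- The closure of `Σ^{1_r}(f)` for a Morin map `f` (all kernels of dimension at most `1`): the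
points of `M` through which there is a regular curve in `M` along which `f` is constant up to terms
of order `r + 1` (that is, the local algebra of `f` is `ℝ[t]/(t^(s+1))` with `s ≥ r`). -/
def SigBar (r : ℕ) (M : Set E) (f : E → F) : Set E :=
  {p | p ∈ M ∧ ∃ c : ℝ → E, IsCurve M p c ∧ deriv c 0 ≠ 0 ∧
    (fun t => f (c t) - f p) =O[𝓝 0] fun t : ℝ => t ^ (r + 1)}

/-- `f` is twisted prim: all kernels have dimension at most one, and there is a line bundle `L` over
`M` (given as a continuous family of rank one projections of some `ℝ^m`) and an isomorphism `T` over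
`Σ(f)` from the kernel of the differential to `L`. -/
def TwistedPrim (M : Set E) (f : E → F) : Prop :=
  (∀ p ∈ M, kdim M f p ≤ 1) ∧
  ∃ (m : ℕ) (L : E → (Fin m → ℝ) →L[ℝ] (Fin m → ℝ)) (T : E → E →L[ℝ] (Fin m → ℝ)),
    ContinuousOn L M ∧ (∀ p ∈ M, (L p).comp (L p) = L p ∧
      Module.finrank ℝ (LinearMap.range (L p : (Fin m → ℝ) →ₗ[ℝ] (Fin m → ℝ))) = 1) ∧
    ContinuousOn T (Sing M f) ∧
    ∀ p ∈ Sing M f, ∀ ξ ∈ Ker M f p, L p (T p ξ) = T p ξ ∧ (T p ξ = 0 → ξ = 0)

/-- `f'` is `C^j`-close to `f` on the closed submanifold `M`: `f' - f` is on `M` the restriction of a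
smooth map of the ambient space whose derivatives of order `≤ j` at the points `z` of `M` are smaller
than `δ z`. -/
def Near (M : Set E) (j : ℕ) (δ : E → ℝ) (f f' : E → F) : Prop :=
  ∃ g : E → F, ContDiff ℝ ∞ g ∧ (∀ z ∈ M, f' z = f z + g z) ∧
    ∀ z ∈ M, ∀ i ≤ j, ‖iteratedFDeriv ℝ i g z‖ < δ z

/-- The subsets `A`, `B` of `M` are `d`-dimensional embedded submanifolds cobordant in `M`: there is a
compact `(d+1)`-dimensional submanifold with boundary `W` of `M × [0,1]`, transverse to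
`M × {0,1}`, with boundary `A × {0} ∪ B × {1}`. Near each of its points `W` is the intersection with
`0 ≤ t ≤ 1` of a submanifold of `M × ℝ` without boundary, parametrised by `ψ`, to which `t` restricts
with nonzero differential where `t = 0` or `t = 1`. -/
def Cobordant (d : ℕ) (M A B : Set E) : Prop :=
  ∃ W : Set (E × ℝ), IsCompact W ∧ (∀ w ∈ W, w.1 ∈ M ∧ 0 ≤ w.2 ∧ w.2 ≤ 1) ∧
    (∀ x, (x, (0 : ℝ)) ∈ W ↔ x ∈ A) ∧ (∀ x, (x, (1 : ℝ)) ∈ W ↔ x ∈ B) ∧
    ∀ w ∈ W, ∃ (ψ : (Fin (d + 1) → ℝ) → E × ℝ) (V : Set (Fin (d + 1) → ℝ)),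
      IsOpen V ∧ w ∈ ψ '' V ∧ ContDiffOn ℝ ∞ ψ V ∧ InjOn ψ V ∧
      (∀ x ∈ V, Function.Injective (fderiv ℝ ψ x)) ∧ (∀ x ∈ V, (ψ x).1 ∈ M) ∧
      (∀ x ∈ V, (ψ x).2 = 0 ∨ (ψ x).2 = 1 → fderiv ℝ (fun z => (ψ z).2) x ≠ 0) ∧
      ∀ V' ⊆ V, IsOpen V' → ∃ U : Set (E × ℝ), IsOpen U ∧
        ψ '' V' ∩ {z | 0 ≤ z.2 ∧ z.2 ≤ 1} = W ∩ U

end basic

/-- A notion of genericity for smooth maps: a class `G₁` of smooth maps `M → N` and a class `G₂` of
smooth maps `M × ℝ^m → N` (thought of as: generic, and with `M × {0}` transverse to the singular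
strata), both dense for the strong `C^∞` topology, for all closed manifolds `M` and all manifolds `N`
embedded as closed subsets of finite-dimensional spaces. Nothing else is required. -/
structure Genericity where
  G₁ : ∀ (E F : Type) [NormedAddCommGroup E] [NormedSpace ℝ E] [NormedAddCommGroup F]
    [NormedSpace ℝ F], Set E → Set F → (E → F) → Prop
  G₂ : ∀ (E F : Type) [NormedAddCommGroup E] [NormedSpace ℝ E] [NormedAddCommGroup F]
    [NormedSpace ℝ F] (m : ℕ), Set E → Set F → (E × (Fin m → ℝ) → F) → Prop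
  dense₁ : ∀ (E F : Type) [NormedAddCommGroup E] [NormedSpace ℝ E] [FiniteDimensional ℝ E]
    [NormedAddCommGroup F] [NormedSpace ℝ F] [FiniteDimensional ℝ F] (n n' : ℕ) (M : Set E)
    (N : Set F), IsCompact M → IsSubmfd n M → IsClosed N → IsSubmfd n' N →
    ∀ f : E → F, SmoothMap M N f → ∀ (j : ℕ) (δ : E → ℝ), Continuous δ → (∀ z, 0 < δ z) →
    ∃ f' : E → F, SmoothMap M N f' ∧ Near M j δ f f' ∧ G₁ E F M N f'
  dense₂ : ∀ (E F : Type) [NormedAddCommGroup E] [NormedSpace ℝ E] [FiniteDimensional ℝ E]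
    [NormedAddCommGroup F] [NormedSpace ℝ F] [FiniteDimensional ℝ F] (n n' m : ℕ) (M : Set E)
    (N : Set F), IsCompact M → IsSubmfd n M → IsClosed N → IsSubmfd n' N →
    ∀ f : E × (Fin m → ℝ) → F, SmoothMap (M ×ˢ univ) N f →
    ∀ (j : ℕ) (δ : E × (Fin m → ℝ) → ℝ), Continuous δ → (∀ z, 0 < δ z) →
    ∃ f' : E × (Fin m → ℝ) → F, SmoothMap (M ×ˢ univ) N f' ∧ Near (M ×ˢ univ) j δ f f' ∧
      G₂ E F m M N f'

/-- The (unoriented part of the) statement asked about in Q1, for a notion of genericity `G`: for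
`r ≥ 1`, `k ≥ r - 1`, a closed `n`-manifold `M`, an `(n+k)`-manifold `N`, a generic twisted prim map
`f : M → N` and every generic `f'  : M × ℝ^(r-1) → N` sufficiently close to `f ∘ pr`, the closure of
`Σ^{1_r}(f)` and `Σ^r(f') ∩ (M × {0})`, of dimension `d = n - r (k + 1)`, are cobordant in `M`. -/
def Q1 (G : Genericity) : Prop :=
  ∀ (E F : Type) [NormedAddCommGroup E] [NormedSpace ℝ E] [FiniteDimensional ℝ E]
    [NormedAddCommGroup F] [NormedSpace ℝ F] [FiniteDimensional ℝ F] (r k n d : ℕ),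
    1 ≤ r → r ≤ k + 1 → d + r * (k + 1) = n →
    ∀ (M : Set E) (N : Set F) (f : E → F), IsCompact M → IsSubmfd n M → IsClosed N →
    IsSubmfd (n + k) N → SmoothMap M N f → G.G₁ E F M N f → TwistedPrim M f →
    ∃ (j : ℕ) (δ : E × (Fin (r - 1) → ℝ) → ℝ), Continuous δ ∧ (∀ z, 0 < δ z) ∧
    ∀ f' : E × (Fin (r - 1) → ℝ) → F, SmoothMap (M ×ˢ univ) N f' →
      Near (M ×ˢ univ) j δ (fun z => f z.1) f' → G.G₂ E F (r - 1) M N f' →
      Cobordant d M (SigBar r M f) {p | (p, 0) ∈ Sig r (M ×ˢ univ) f'}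

end Pool.Agent.Lib.MP_086785_gt
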